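import Pool.Agent.helper16.PU.Spec2

/-!
# PU, row RAM
-/

set_option autoImplicit false

namespace Pool.Agent.PU

open Matrix Polynomial Pool.Agent.GO Pool.Agent.AR Pool.Agent.RG Pool.Agent.HZ Pool.Agent.DS
  Pool.Agent.AX Pool.Agent.UM NumberField

theorem RAM_zpow (p : ℕ) [hp : Fact p.Prime] (z : ℤ) (h : (p : ℝ) ^ z < 1) : (p : ℝ) ^ z ≤ (p : ℝ)⁻¹ := by
  have hp1 : (1 : ℝ) < p := by exact_mod_cast hp.out.one_lt
  have hz : z < 0 := by
    by_contra hz
    push Not at hz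
    exact absurd (one_le_zpow₀ hp1.le hz) (not_le.mpr h)
  rw [← _root_.zpow_neg_one]
  exact zpow_le_zpow_right₀ hp1.le (by omega)

theorem RAM_aux (p : ℕ) [hp : Fact p.Prime] (F : Type) [NormedField F] [NormedAlgebra ℚ_[p] F]
    (D : ℕ) (x : F) (hx0 : x ≠ 0) (hx : ‖x‖ < 1) (i j : ℕ) (hij : i < j) (hj : j ≤ D)
    (a b : ℚ_[p]) (hab : ‖a • x ^ i‖ = ‖b • x ^ j‖) (ha : a • x ^ i ≠ 0) : ‖x‖ ^ D ≤ (p : ℝ)⁻¹ := by
  have ha0 : a ≠ 0 := by
    intro h
    apply ha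
    rw [h, zero_smul]
  have hn : ‖x‖ ≠ 0 := norm_ne_zero_iff.mpr hx0
  rw [norm_smul, norm_smul, norm_pow, norm_pow] at hab
  have hb0 : b ≠ 0 := by
    intro h
    rw [h, norm_zero, zero_mul] at hab
    rcases mul_eq_zero.mp hab with h1 | h1
    · exact ha0 (norm_eq_zero.mp h1)
    · exact pow_ne_zero _ hn h1
  have hbn : ‖b‖ ≠ 0 := norm_ne_zero_iff.mpr hb0
  have e : ‖x‖ ^ (j - i) = ‖a / b‖ := by
    rw [norm_div, eq_div_iff hbn]
    have h1 : ‖x‖ ^ j = ‖x‖ ^ (j - i) * ‖x‖ ^ i := by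
      rw [← pow_add]
      congr 1
      omega
    rw [h1] at hab
    have h2 : ‖x‖ ^ i ≠ 0 := pow_ne_zero _ hn
    have h3 : ‖a‖ * ‖x‖ ^ i = ‖x‖ ^ (j - i) * ‖b‖ * ‖x‖ ^ i := by
      rw [hab]
      ring
    exact (mul_right_cancel₀ h2 h3).symm
  have hq : a / b ≠ 0 := div_ne_zero ha0 hb0
  have e2 := Padic.norm_eq_zpow_neg_valuation hq
  have h1 : ‖x‖ ^ (j - i) < 1 := pow_lt_one₀ (norm_nonneg _) hx (by omega)
  rw [e, e2] at h1
  have h2 := RAM_zpow p _ h1
  rw [← e2, ← e] at h2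
  exact (pow_le_pow_of_le_one (norm_nonneg _) hx.le (by omega)).trans h2

theorem RAM_one (p : ℕ) [hp : Fact p.Prime] (F : Type) [NormedField F] [NormedAlgebra ℚ_[p] F]
    [FiniteDimensional ℚ_[p] F] (x : F) (hx0 : x ≠ 0) (hx : ‖x‖ < 1) :
    ‖x‖ ^ (Module.finrank ℚ_[p] F) ≤ (p : ℝ)⁻¹ := by
  classical
  have hultra : IsUltrametricDist F := IsUltrametricDist.of_normedAlgebra ℚ_[p]
  have hli : ¬ LinearIndependent ℚ_[p] (fun i : Fin (Module.finrank ℚ_[p] F + 1) => x ^ (i : ℕ)) := by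
    intro h
    have := h.fintype_card_le_finrank
    rw [Fintype.card_fin] at this
    omega
  rw [Fintype.not_linearIndependent_iff] at hli
  obtain ⟨g, hg, i0, hi0⟩ := hli
  obtain ⟨i, -, hi⟩ := Finset.exists_max_image (Finset.univ : Finset (Fin (Module.finrank ℚ_[p] F + 1)))
    (fun i => ‖g i • x ^ (i : ℕ)‖) ⟨i0, Finset.mem_univ _⟩
  have hne : g i • x ^ (i : ℕ) ≠ 0 := by
    intro h
    have h1 := hi i0 (Finset.mem_univ _)
    rw [h, norm_zero] at h1
    have h2 : g i0 • x ^ (i0 : ℕ) = 0 := norm_le_zero_iff.mp h1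
    rcases smul_eq_zero.mp h2 with h3 | h3
    · exact hi0 h3
    · exact pow_ne_zero _ hx0 h3
  have hsum : g i • x ^ (i : ℕ) = -∑ j ∈ Finset.univ.erase i, g j • x ^ (j : ℕ) := by
    rw [← Finset.add_sum_erase _ _ (Finset.mem_univ i)] at hg
    exact eq_neg_of_add_eq_zero_left hg
  have : Nonempty (Fin (Module.finrank ℚ_[p] F + 1)) := ⟨i0⟩
  obtain ⟨j, hj, hle⟩ := IsUltrametricDist.exists_norm_finsetSum_le (Finset.univ.erase i)
    (fun j => g j • x ^ (j : ℕ))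
  have hne2 : (Finset.univ.erase i).Nonempty := by
    by_contra h
    rw [Finset.not_nonempty_iff_eq_empty] at h
    rw [h, Finset.sum_empty, neg_zero] at hsum
    exact hne hsum
  have hji := Finset.ne_of_mem_erase (hj hne2)
  have heq : ‖g i • x ^ (i : ℕ)‖ = ‖g j • x ^ (j : ℕ)‖ := by
    apply le_antisymm
    · conv_lhs => rw [hsum, norm_neg]
      exact hle
    · exact hi j (Finset.mem_univ _)
  have hi1 := i.2
  have hj1 := j.2
  rcases lt_or_gt_of_ne (fun h => hji (Fin.ext h) : (j : ℕ) ≠ (i : ℕ)) with h | h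
  · refine RAM_aux p F _ x hx0 hx (j : ℕ) (i : ℕ) h (by omega) (g j) (g i) heq.symm ?_
    intro h0
    rw [h0, norm_zero] at heq
    exact hne (norm_eq_zero.mp heq)
  · exact RAM_aux p F _ x hx0 hx (i : ℕ) (j : ℕ) h (by omega) (g i) (g j) heq hne

theorem RAM : RAM_stmt := by
  intro p d hp F _ _ _ hd
  have hp1 : (1 : ℝ) < p := by exact_mod_cast hp.out.one_lt
  have hp0 : (0 : ℝ) < p := by linarith
  have hpos : 0 < Module.finrank ℚ_[p] F := Module.finrank_pos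
  have hultra : IsUltrametricDist F := IsUltrametricDist.of_normedAlgebra ℚ_[p]
  refine ⟨?_, ?_⟩
  · intro x hx
    by_cases hx0 : x = 0
    · rw [hx0, norm_zero, zero_pow (by omega)]
      exact inv_nonneg.mpr hp0.le
    · exact (pow_le_pow_of_le_one (norm_nonneg _) hx.le hd).trans (RAM_one p F x hx0 hx)
  · have : ProperSpace F := FiniteDimensional.proper ℚ_[p] F
    have hc : IsCompact (Metric.ball (0 : F) 1) :=
      Metric.isCompact_of_isClosed_isBounded (IsUltrametricDist.isClosed_ball (0 : F) 1)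
        Metric.isBounded_ball
    have hne : (Metric.ball (0 : F) 1).Nonempty := ⟨0, Metric.mem_ball_self one_pos⟩
    obtain ⟨π, hπ, hmax⟩ := hc.exists_isMaxOn hne (continuous_norm.continuousOn)
    have hmax' : ∀ x : F, ‖x‖ < 1 → ‖x‖ ≤ ‖π‖ := by
      intro x hx
      exact hmax (by rw [Metric.mem_ball, dist_zero_right]; exact hx)
    refine ⟨π, ?_, ?_, hmax'⟩
    · have h1 : ‖algebraMap ℚ_[p] F (p : ℚ_[p])‖ = (p : ℝ)⁻¹ := by
        rw [norm_algebraMap', Padic.norm_p]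
      have h2 := hmax' (algebraMap ℚ_[p] F (p : ℚ_[p])) (by
        rw [h1]
        exact inv_lt_one_of_one_lt₀ hp1)
      rw [h1] at h2
      exact (inv_pos.mpr hp0).trans_le h2
    · rw [Metric.mem_ball, dist_zero_right] at hπ
      exact hπ

end Pool.Agent.PU
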